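import Pool.Agent.helper91.HZF.Spec

/-!
# Project HZF (MP_069684_lc): ASM, assembly of the upper bound
-/

set_option autoImplicit false

namespace Pool.Agent.HZF

open Finset Pool.Agent.helper38.Neg Pool.Agent.helper55.NT Pool.Agent.LN

lemma ASM_rv {n : ℕ} (r : Rails n) : rv (wd r) = r := by
  funext i v
  unfold rv wd rail
  cases v
  · rw [if_neg (by decide), Fin.append_right]
  · rw [if_pos rfl, Fin.append_left]

open Classical in
lemma ASM_key (h5 : GAB_stmt) {n s k M B m : ℕ} (C : Circuit n s) (o : Fin (n + s))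
    (H : Fin M → Fin n → Fin B) (χ : Fin m → Fin n → Bool) (hχ : Sep χ)
    (hH : ∀ S : Finset (Fin n), S.card ≤ k →
      M < 2 * (univ.filter fun j => Set.InjOn (H j) (S : Set (Fin n))).card)
    (α : Fin n → Option Bool) (hα : unst α ≤ k) :
    ((∀ x, Res α x → C.val x o = true) →
      M < 2 * (univ.filter fun j : Fin M =>
        G C o k (H j) χ (k + 1) (fun _ => none) (rv (wd (loR α))) = true).card) ∧
    ((∀ x, Res α x → C.val x o = false) →
      ¬ M < 2 * (univ.filter fun j : Fin M =>
        G C o k (H j) χ (k + 1) (fun _ => none) (rv (wd (hiR α))) = true).card) := by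
  have hS := hH (univ.filter fun i => α i = none) hα
  rw [ASM_rv, ASM_rv]
  have key : ∀ j : Fin M, Set.InjOn (H j) ((univ.filter fun i => α i = none : Finset (Fin n)) : Set (Fin n)) →
      ((∀ x, Res α x → C.val x o = true) →
        G C o k (H j) χ (k + 1) (fun _ => none) (loR α) = true) ∧
      ((∀ x, Res α x → C.val x o = false) →
        G C o k (H j) χ (k + 1) (fun _ => none) (hiR α) = false) := by
    intro j hj
    have hIso : Iso (H j) α := by
      intro i i' hi hi' he
      exact hj (by simpa using hi) (by simpa using hi') he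
    have hIn : ∀ v, InS (H j) χ v (fun _ => none) α := by
      intro v b x hx
      exact absurd hx (by simp)
    have h8 := h5 n s B m C o k (H j) χ α hχ hIso hα (k + 1) (fun _ => none)
    refine ⟨fun h => h8.1 h (hIn true), fun h => h8.2 h (hIn false) (by omega)⟩
  constructor
  · intro h
    refine lt_of_lt_of_le hS ?_
    refine Nat.mul_le_mul_left 2 ?_
    refine Finset.card_le_card ?_
    intro j hj
    rw [Finset.mem_filter] at hj ⊢
    exact ⟨hj.1, (key j hj.2).1 h⟩
  · intro h h9
    have hd : Disjoint (univ.filter fun j => Set.InjOn (H j)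
        ((univ.filter fun i => α i = none : Finset (Fin n)) : Set (Fin n)))
        (univ.filter fun j : Fin M =>
          G C o k (H j) χ (k + 1) (fun _ => none) (hiR α) = true) := by
      rw [Finset.disjoint_left]
      intro j hj hj'
      rw [Finset.mem_filter] at hj hj'
      have := (key j hj.2).2 h
      rw [this] at hj'
      exact absurd hj'.2 (by decide)
    have hu := Finset.card_union_of_disjoint hd
    have hl : ((univ.filter fun j => Set.InjOn (H j)
        ((univ.filter fun i => α i = none : Finset (Fin n)) : Set (Fin n))) ∪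
        (univ.filter fun j : Fin M =>
          G C o k (H j) χ (k + 1) (fun _ => none) (hiR α) = true)).card ≤ M := by
      refine (Finset.card_le_univ _).trans ?_
      rw [Fintype.card_fin]
    omega

theorem ASM (h1 : HSH_stmt) (h2 : SPL_stmt) (h3 : MAJ_stmt) (h4 : GCO_stmt) (h5 : GAB_stmt) (h6 : FIN_stmt) (h7 : V3S_stmt) : ASM_stmt := by
  classical
  intro n s k C o
  obtain ⟨H, hH⟩ := h1 n k
  obtain ⟨χ, hχ⟩ := h2 n
  have hH' : ∀ S : Finset (Fin n), S.card ≤ k →
      (lg n + 1) * k + 1 < 2 * (univ.filter fun j => Set.InjOn (H j) (S : Set (Fin n))).card := by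
    intro S hS
    refine lt_of_lt_of_le (hH S hS) (le_of_eq ?_)
    refine congrArg (fun z => 2 * z) ?_
    refine congrArg Finset.card ?_
    ext j
    simp only [Finset.mem_filter]
  let f : Fin ((lg n + 1) * k + 1) → Fn (n + n) :=
    fun j y => G C o k (H j) χ (k + 1) (fun _ => none) (rv y)
  let F : Fn (n + n) := fun y =>
    decide ((lg n + 1) * k + 1 < 2 * (univ.filter fun j => f j y = true).card)
  have r1 := Rel.biUnion (F := (∅ : Set (Fn (n + n)))) (univ : Finset (Fin ((lg n + 1) * k + 1)))
    (fun j => {f j}) (fun j _ => h4 n s (16 * k ^ 2 + 1) (2 * (lg n + 1)) C o k (H j) χ (k + 1)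
      (fun _ => none))
  have r2 := h3 (n + n) ((lg n + 1) * k + 1) f
  have r3 := r1.trans' (r2.mono (F' := ∅ ∪ ⋃ i ∈ (univ : Finset (Fin ((lg n + 1) * k + 1))), {f i}) (by
    rintro g ⟨j, rfl⟩
    refine Or.inr ?_
    simp only [Set.mem_iUnion]
    exact ⟨j, Finset.mem_univ _, rfl⟩) le_rfl le_rfl le_rfl)
  obtain ⟨L, q, g1, g2, g3, -, g5⟩ := r3 [] 0 SL.nil (by simp)
  have hq : q = 0 := by omega
  subst hq
  rw [Finset.card_univ, Fintype.card_fin] at g3
  obtain ⟨C', hC'⟩ := h6 n L g1
  obtain ⟨j, hj⟩ := hC' F (g5 F rfl)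
  have hF1 : ∀ α : Fin n → Option Bool, unst α ≤ k → ∀ b : Bool, (∀ x, Res α x → C.val x o = b) →
      val3 C' α j = some b := by
    intro α hα b hb
    have hkey := ASM_key h5 C o H χ hχ hH' α hα
    cases b
    · refine (hj α).2 ?_
      exact decide_eq_false (hkey.2 hb)
    · refine (hj α).1 ?_
      exact decide_eq_true (hkey.1 hb)
  have hval : ∀ x, C'.val x j = C.val x o := by
    intro x
    have e1 : unst (fun i => some (x i) : Fin n → Option Bool) ≤ k := by
      unfold unst
      simp
    have e2 := hF1 (fun i => some (x i)) e1 (C.val x o) (by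
      intro x' hx'
      have : x' = x := by
        funext i
        exact hx' i (x i) rfl
      rw [this])
    rw [h7 n _ C' x j] at e2
    exact Option.some.inj e2
  refine ⟨n + L.length, ?_, C', j, hval, ?_⟩
  · unfold TT
    refine Nat.add_le_add_left ?_ n
    simpa using g3
  · intro α b hα hb
    refine hF1 α hα b ?_
    intro x hx
    rw [← hval]
    exact hb x hx

end Pool.Agent.HZF
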